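import Mathlib

/-! Relatively dense families of points in the plane and monotone pairs of coordinates. -/

namespace Pool.Agent.FS.PlaneSep

open Filter

variable {I : Type} {x y u v X Y f g F : I → ℝ}

/-- The family is relatively dense. -/
def Den (x y : I → ℝ) : Prop := ∃ R : ℝ, ∀ s t : ℝ, ∃ i, |x i - s| ≤ R ∧ |y i - t| ≤ R

/-- The second function is weakly increasing along the first. -/
def Mo (f F : I → ℝ) : Prop := ∀ i j, f i < f j → F i ≤ F j

theorem lin_le {A B R a b : ℝ} (ha : |a| ≤ R) (hb : |b| ≤ R) : |A * a + B * b| ≤ (|A| + |B|) * R := by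
  have h1 := abs_add_le (A * a) (B * b)
  rw [abs_mul, abs_mul] at h1
  nlinarith [mul_le_mul_of_nonneg_left ha (abs_nonneg A), mul_le_mul_of_nonneg_left hb (abs_nonneg B)]

theorem ev_gt {e : ℝ} (he : 0 < e) (C : ℝ) : ∀ᶠ n : ℕ in atTop, C < n * e :=
  (tendsto_natCast_atTop_atTop.atTop_mul_const he).eventually_gt_atTop C

theorem Den.rays (h : Den x y) : ∃ s : ℝ → ℝ → ℕ → I,
    (∀ z w A B C : ℝ, 0 < A * z + B * w → ∀ᶠ n in atTop, C < A * x (s z w n) + B * y (s z w n)) ∧
    ∀ z w z' w' A B : ℝ, 0 < A * (z - z') + B * (w - w') → ∀ᶠ n in atTop,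
      A * x (s z' w' n) + B * y (s z' w' n) < A * x (s z w n) + B * y (s z w n) := by
  obtain ⟨R, h⟩ := h
  choose s h1 h2 using h
  refine ⟨fun z w n => s (n * z) (n * w), fun z w A B C h0 => ?_, fun z w z' w' A B h0 => ?_⟩
  · filter_upwards [ev_gt h0 (C + (|A| + |B|) * R)] with n hn
    have := abs_le.1 (lin_le (A := A) (B := B) (h1 (n * z) (n * w)) (h2 (n * z) (n * w)))
    linarith [this.1]
  · filter_upwards [ev_gt h0 (2 * ((|A| + |B|) * R))] with n hn
    have a := abs_le.1 (lin_le (A := A) (B := B) (h1 (n * z) (n * w)) (h2 (n * z) (n * w)))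
    have b := abs_le.1 (lin_le (A := A) (B := B) (h1 (n * z') (n * w')) (h2 (n * z') (n * w')))
    linarith [a.1, b.2]

theorem Den.three (h : Den x y) (z w : ℝ) {A B A' B' A'' B'' : ℝ} (h1 : 0 < A * z + B * w)
    (h2 : 0 < A' * z + B' * w) (h3 : 0 < A'' * z + B'' * w) (C C' C'' : ℝ) :
    ∃ i, C < A * x i + B * y i ∧ C' < A' * x i + B' * y i ∧ C'' < A'' * x i + B'' * y i := by
  obtain ⟨s, hs, -⟩ := h.rays
  obtain ⟨n, hn⟩ := ((hs z w A B C h1).and ((hs z w A' B' C' h2).and (hs z w A'' B'' C'' h3))).exists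
  exact ⟨_, hn⟩

theorem sq_pos2 {A B : ℝ} (h : A ≠ 0 ∨ B ≠ 0) : 0 < A * A + B * B := by
  rcases h with h | h <;> nlinarith [mul_self_pos.2 h, mul_self_nonneg A, mul_self_nonneg B]

theorem Den.unb (h : Den x y) {A B : ℝ} (h0 : A ≠ 0 ∨ B ≠ 0) (C : ℝ) :
    ∃ i, C < A * x i + B * y i := by
  obtain ⟨i, hi, -⟩ := h.three A B (sq_pos2 h0) (sq_pos2 h0) (sq_pos2 h0) C C C
  exact ⟨i, hi⟩

theorem Den.nc (h : Den x y) {A B : ℝ} (h0 : A ≠ 0 ∨ B ≠ 0)
    (hc : ∀ i j, A * x i + B * y i ≤ A * x j + B * y j) : False := by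
  obtain ⟨j, -⟩ := h.unb h0 0
  obtain ⟨i, hi⟩ := h.unb h0 (A * x j + B * y j)
  exact (hc i j).not_gt hi

theorem Den.map (h : Den x y) {a b c d : ℝ} (hd : a * d - b * c ≠ 0) :
    Den (fun i => a * x i + b * y i) fun i => c * x i + d * y i := by
  obtain ⟨R, h⟩ := h
  refine ⟨max ((|a| + |b|) * R) ((|c| + |d|) * R), fun s t => ?_⟩
  obtain ⟨i, h1, h2⟩ := h ((d * s - b * t) / (a * d - b * c)) ((a * t - c * s) / (a * d - b * c))
  refine ⟨i, le_max_of_le_left ?_, le_max_of_le_right ?_⟩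
  · have e : a * x i + b * y i - s = a * (x i - (d * s - b * t) / (a * d - b * c)) +
        b * (y i - (a * t - c * s) / (a * d - b * c)) := by
      have := mul_inv_cancel₀ hd
      simp only [div_eq_mul_inv]
      linear_combination s * this
    exact (congrArg abs e).trans_le (lin_le h1 h2)
  · have e : c * x i + d * y i - t = c * (x i - (d * s - b * t) / (a * d - b * c)) +
        d * (y i - (a * t - c * s) / (a * d - b * c)) := by
      have := mul_inv_cancel₀ hd
      simp only [div_eq_mul_inv]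
      linear_combination t * this
    exact (congrArg abs e).trans_le (lin_le h1 h2)

theorem par {A B A' B' : ℝ} (h : A ≠ 0 ∨ B ≠ 0) (h' : A' ≠ 0 ∨ B' ≠ 0) (hd : A * B' - B * A' = 0) :
    ∃ l : ℝ, l ≠ 0 ∧ A' = l * A ∧ B' = l * B := by
  have p := (sq_pos2 h).ne'
  have e1 : A' = (A * A' + B * B') / (A * A + B * B) * A := by
    rw [div_mul_eq_mul_div, eq_div_iff p]
    linear_combination (-B) * hd
  have e2 : B' = (A * A' + B * B') / (A * A + B * B) * B := by
    rw [div_mul_eq_mul_div, eq_div_iff p]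
    linear_combination A * hd
  refine ⟨_, fun h0 => ?_, e1, e2⟩
  rw [h0, zero_mul] at e1 e2
  exact h'.elim (fun h => h e1) fun h => h e2

theorem Den.two (hq : Den u v) {A B A' B' C C' : ℝ} (h : A ≠ 0 ∨ B ≠ 0) (h' : A' ≠ 0 ∨ B' ≠ 0)
    (hn : ∀ i, A * u i + B * v i < C → A' * u i + B' * v i ≤ C') :
    ∃ l : ℝ, 0 < l ∧ A' = l * A ∧ B' = l * B := by
  have key : ∀ z w, A * z + B * w < 0 → 0 < A' * z + B' * w → False := fun z w h1 h2 => by
    obtain ⟨i, a, b, -⟩ := hq.three z w (A := -A) (B := -B) (by linarith) h2 h2 (-C) C' C'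
    exact (hn i (by linarith)).not_gt b
  by_cases hd : A * B' - B * A' = 0
  · obtain ⟨l, l0, e1, e2⟩ := par h h' hd
    refine ⟨l, lt_of_le_of_ne (not_lt.1 fun hl => key (-A) (-B) ?_ ?_) l0.symm, e1, e2⟩
    · linarith [sq_pos2 h]
    · rw [e1, e2]
      nlinarith [sq_pos2 h]
  · have p := mul_self_pos.2 hd
    exact (key ((-B' - B) * (A * B' - B * A')) ((A + A') * (A * B' - B * A')) (by linarith)
      (by linarith)).elim

theorem exists_mo [Countable I] (hq : Den u v)
    (H : ∀ c : ℝ, (∀ i, f i ≠ c) → ∃ A B C : ℝ, (A ≠ 0 ∨ B ≠ 0) ∧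
      ∀ i, (f i < c → A * u i + B * v i ≤ C) ∧ (c < f i → C ≤ A * u i + B * v i)) :
    ∃ A B : ℝ, (A ≠ 0 ∨ B ≠ 0) ∧ Mo f fun i => A * u i + B * v i := by
  have dn := (Set.countable_range f).dense_compl ℝ
  obtain ⟨c, hc, -⟩ := dn.exists_between (zero_lt_one' ℝ)
  have hc : ∀ i, f i ≠ c := fun i e => hc ⟨i, e⟩
  obtain ⟨A, B, C, h0, h1⟩ := H c hc
  refine ⟨A, B, h0, fun i j hij => ?_⟩
  obtain ⟨c', hc', k1, k2⟩ := dn.exists_between hij
  have hc' : ∀ i, f i ≠ c' := fun i e => hc' ⟨i, e⟩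
  obtain ⟨A', B', C', h0', h2⟩ := H c' hc'
  have a := ((h2 i).1 k1).trans ((h2 j).2 k2)
  rcases le_total c c' with hl | hl
  · obtain ⟨l, l0, e1, e2⟩ := hq.two h0 h0' (C := C) (C' := C') fun k hk => (h2 k).1
      ((lt_of_le_of_ne (not_lt.1 fun h => ((h1 k).2 h).not_gt hk) (hc k)).trans_le hl)
    rw [e1, e2] at a
    exact le_of_mul_le_mul_left (by linarith) l0
  · obtain ⟨l, l0, e1, e2⟩ := hq.two h0' h0 (C := C') (C' := C) fun k hk => (h1 k).1
      ((lt_of_le_of_ne (not_lt.1 fun h => ((h2 k).2 h).not_gt hk) (hc' k)).trans_le hl)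
    rw [e1, e2]
    nlinarith [mul_le_mul_of_nonneg_left a l0.le]

theorem nopar (h : Den f g) (h1 : Mo f F) {l : ℝ} (hl : l ≠ 0) (h2 : Mo g fun i => l * F i)
    (i j : I) : F i ≤ F j := by
  obtain ⟨k, a, b, -⟩ := h.three 1 (-l) (A := 1) (B := 0) (A' := 0) (B' := -l) (A'' := 1) (B'' := 0)
    (by simp) (by simpa using hl) (by simp) (f i) (-l * g j) 0
  refine (h1 i k (by linarith)).trans ?_
  rcases lt_or_gt_of_ne hl with h0 | h0
  · have := h2 j k (by nlinarith)
    simp only at this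
    nlinarith
  · have := h2 k j (by nlinarith)
    exact le_of_mul_le_mul_left this h0

theorem slope (hp : Den x y) (hq : Den X Y) (hx : Mo x X) (hy : Mo y Y) (s : ℝ) {A B : ℝ}
    (h0 : A ≠ 0 ∨ B ≠ 0) (h : Mo (fun i => x i - s * y i) fun i => A * X i + B * Y i) : 0 < A := by
  rcases lt_trichotomy A 0 with hA | hA | hA
  · exfalso
    obtain ⟨t, t1, t2⟩ : ∃ t : ℝ, t * t = 1 ∧ t * s ≤ 0 := by
      rcases le_total s 0 with hs | hs
      · exact ⟨1, by simp, by simpa⟩
      · exact ⟨-1, by simp, by simpa⟩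
    have hB : |B * t| = |B| := by
      rw [abs_mul, (abs_eq_abs.2 (mul_self_eq_one_iff.1 t1) : |t| = |1|), abs_one, mul_one]
    have key : ∀ i j, ∃ k, x k = x i ∧ x k = x j := fun i j => by
      obtain ⟨k, a, b, c⟩ := hq.three (|B| + 1) (-A * t) (A := 1) (B := 0) (A' := -A) (B' := -B)
        (A'' := 0) (B'' := t) (by simp only [one_mul, zero_mul, add_zero]; positivity)
        (by nlinarith [le_abs_self (B * t)]) (by nlinarith) (max (X i) (X j))
        (max (-A * X i + -B * Y i) (-A * X j + -B * Y j)) (max (t * Y i) (t * Y j))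
      rw [max_lt_iff] at a b c
      have one : ∀ i, X i < 1 * X k + 0 * Y k → -A * X i + -B * Y i < -A * X k + -B * Y k →
          t * Y i < 0 * X k + t * Y k → x k = x i := fun i a b c => by
        have a1 : x i ≤ x k := not_lt.1 fun e => by linarith [hx k i e]
        have a2 : x k - s * y k ≤ x i - s * y i := not_lt.1 fun e => by
          have := h i k e
          simp only at this
          linarith
        have a3 : 0 ≤ t * (y k - y i) := by
          rcases mul_self_eq_one_iff.1 t1 with rfl | rfl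
          · have : y i ≤ y k := not_lt.1 fun e => by linarith [hy k i e]
            linarith
          · have : y k ≤ y i := not_lt.1 fun e => by linarith [hy i k e]
            linarith
        have a4 := mul_nonpos_of_nonpos_of_nonneg t2 a3
        have a5 : t * s * (t * (y k - y i)) = s * (y k - y i) := by
          linear_combination (s * (y k - y i)) * t1
        linarith
      exact ⟨k, one i a.1 b.1 c.1, one j a.2 b.2 c.2⟩
    refine hp.nc (A := 1) (B := 0) (by simp) fun i j => ?_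
    obtain ⟨k, a, b⟩ := key i j
    linarith
  · exfalso
    subst hA
    have hB : B ≠ 0 := h0.resolve_left (by simp)
    have d := hp.map (a := 0) (b := 1) (c := 1) (d := -s) (by simp)
    refine hq.nc (A := 0) (B := 1) (by simp) fun i j => ?_
    have := nopar d (F := Y) (fun i j e => hy i j (by simpa using e)) hB
      (fun i j e => by simpa using h i j (by simp only at e ⊢; linarith)) i j
    linarith
  · exact hA

end Pool.Agent.FS.PlaneSep
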