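import Pool.Agent.FS.PlaneSep.Basic

/-! The slope map is affine, and the second family is an affine image of the first. -/

namespace Pool.Agent.FS.PlaneSep

open Filter

variable {I : Type} {x y u v X Y : I → ℝ} {ψ : ℝ → ℝ}

/-- The slope map sends half-planes of pairs to half-planes of pairs. -/
def Sl (x y X Y : I → ℝ) (ψ : ℝ → ℝ) : Prop :=
  ∀ s, Mo (fun i => x i - s * y i) fun i => X i - ψ s * Y i

theorem unbdd (hp : Den x y) (hq : Den X Y) (hy : Mo y Y) (h : Sl x y X Y ψ) (K : ℝ) :
    ∃ M, K < ψ M := by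
  by_contra hc
  have hc : ∀ M, ψ M ≤ K := fun M => not_lt.1 fun e => hc ⟨M, e⟩
  have one : ∀ i k, Y i < Y k → X i - K * Y i < X k - K * Y k → y k = y i := fun i k a b => by
    have a1 : y i ≤ y k := not_lt.1 fun e => by linarith [hy k i e]
    by_contra ne
    have a2 : 0 < y k - y i := sub_pos.2 (lt_of_le_of_ne a1 (Ne.symm ne))
    have := h ((x k - x i) / (y k - y i) + 1) k i (by
      have := div_mul_cancel₀ (x k - x i) a2.ne'
      simp only
      nlinarith)
    simp only at this
    nlinarith [hc ((x k - x i) / (y k - y i) + 1)]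
  refine hp.nc (A := 0) (B := 1) (by simp) fun i j => ?_
  obtain ⟨k, a, b, -⟩ := hq.three (K + 1) 1 (A := 0) (B := 1) (A' := 1) (B' := -K) (A'' := 0)
    (B'' := 1) (by simp) (by simp) (by simp) (max (Y i) (Y j))
    (max (X i - K * Y i) (X j - K * Y j)) 0
  rw [max_lt_iff] at a b
  have e1 := one i k (by linarith [a.1]) (by linarith [b.1])
  have e2 := one j k (by linarith [a.2]) (by linarith [b.2])
  linarith

theorem est {A B C D K L m H e1 e2 W g : ℝ} (hA : |A| ≤ K) (hB : |B| ≤ K) (hC : |C| ≤ K)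
    (hD : |D| ≤ K) (hg : g = A - B - (C - D)) (hL : 2 * K < L) (hL2 : 12 * K ^ 2 < L * g)
    (hm : K + L ≤ m) (hH : 0 < H) (h1 : 0 ≤ e1) (h2 : 0 ≤ e2)
    (a1 : (A - B) * H + B * e1 ≤ W) (a2 : W ≤ (C - D) * (H + e2) + D * e1) (a3 : m * e1 ≤ W)
    (a4 : m * e2 ≤ C * (H + e2) - A * H) : False := by
  have hK : 0 ≤ K := (abs_nonneg A).trans hA
  rw [abs_le] at hA hB hC hD
  have b1 : L * e2 ≤ 2 * K * H := by nlinarith
  have b2 : e2 ≤ H := by nlinarith
  have b0 : (C - D) * (H + e2) ≤ 2 * K * (H + e2) :=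
    mul_le_mul_of_nonneg_right (by linarith) (by linarith)
  have b3 : L * e1 ≤ 4 * K * H := by nlinarith
  have b4 : g * H ≤ 2 * K * (e1 + e2) := by rw [hg]; nlinarith
  have b5 : L * (g * H) ≤ L * (2 * K * (e1 + e2)) := mul_le_mul_of_nonneg_left b4 (by linarith)
  have b6 : 2 * K * (L * e1 + L * e2) ≤ 2 * K * (6 * K * H) :=
    mul_le_mul_of_nonneg_left (by linarith) (by linarith)
  nlinarith [mul_lt_mul_of_pos_right hL2 hH]

theorem trap (hp : Den x y) (hq : Den X Y) (hy : Mo y Y) (h : Sl x y X Y ψ) {a b c d : ℝ}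
    (h1 : a < c) (h2 : a - b < c - d) (h3 : d < c) : ψ a - ψ b ≤ ψ c - ψ d := by
  by_contra hc
  obtain ⟨g, hg⟩ : ∃ g, g = ψ a - ψ b - (ψ c - ψ d) := ⟨_, rfl⟩
  have g0 : 0 < g := by linarith [not_le.1 hc]
  obtain ⟨K, hK⟩ : ∃ K, K = |ψ a| + |ψ b| + |ψ c| + |ψ d| := ⟨_, rfl⟩
  have := abs_nonneg (ψ a)
  have := abs_nonneg (ψ b)
  have := abs_nonneg (ψ c)
  have := abs_nonneg (ψ d)
  have k0 : 0 ≤ 12 * K ^ 2 / g := by positivity
  have k1 : 12 * K ^ 2 < (2 * K + 1 + 12 * K ^ 2 / g) * g := by
    have := div_mul_cancel₀ (12 * K ^ 2) g0.ne'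
    nlinarith
  obtain ⟨M, hM⟩ := unbdd hp hq hy h (K + (2 * K + 1 + 12 * K ^ 2 / g))
  obtain ⟨τ, t0, t1, t2, t3⟩ : ∃ τ : ℝ, 0 < τ ∧ 4 * τ ≤ c - a ∧ 4 * τ ≤ c - d - (a - b) ∧
      4 * τ ≤ c - d := by
    refine ⟨min (min (c - a) (c - d - (a - b))) (c - d) / 4, ?_, ?_, ?_, ?_⟩
    · have : 0 < min (min (c - a) (c - d - (a - b))) (c - d) :=
        lt_min (lt_min (by linarith) (by linarith)) (by linarith)
      linarith
    · linarith [min_le_left (min (c - a) (c - d - (a - b))) (c - d),
        min_le_left (c - a) (c - d - (a - b))]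
    · linarith [min_le_left (min (c - a) (c - d - (a - b))) (c - d),
        min_le_right (c - a) (c - d - (a - b))]
    · linarith [min_le_right (min (c - a) (c - d - (a - b))) (c - d)]
  obtain ⟨ε, e0, e1, e2, e3⟩ : ∃ ε : ℝ, 0 < ε ∧ b * ε < τ ∧ -c * ε < τ ∧ M * ε < τ := by
    have p : 0 < |b| + |c| + |M| + 1 := by positivity
    have q := div_mul_cancel₀ τ p.ne'
    have r := div_pos t0 p
    have := abs_nonneg b
    have := abs_nonneg c
    have := abs_nonneg M
    exact ⟨τ / (|b| + |c| + |M| + 1), r, by nlinarith [le_abs_self b], by nlinarith [neg_le_abs c],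
      by nlinarith [le_abs_self M]⟩
  obtain ⟨A, -⟩ := hp.unb (A := 1) (B := 0) (by simp) 0
  obtain ⟨j, hj⟩ := hq.unb (A := 0) (B := 1) (by simp) (Y A)
  obtain ⟨s, s1, s2⟩ := hp.rays
  obtain ⟨n, c1, c2, c3, c4, c5, c6, c7, c8, c9⟩ :=
    ((s1 (a + τ) 1 1 (-a) (x A - a * y A) (by linarith)).and
    ((s2 (c - d - 2 * τ) ε (a + τ) 1 1 (-b) (by linarith)).and
    ((s1 (c - τ) (1 + ε) (-1) c (-x A + c * y A) (by linarith)).and
    ((s2 (c - τ) (1 + ε) (c - d - 2 * τ) ε 1 (-d) (by linarith)).and
    ((s1 (c - d - 2 * τ) ε 1 (-M) (x A - M * y A) (by linarith)).and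
    ((s2 (c - τ) (1 + ε) (a + τ) 1 1 (-M) (by linarith)).and
    ((s1 (c - d - 2 * τ) ε 0 1 (y A) (by linarith)).and
    ((s2 (c - τ) (1 + ε) (a + τ) 1 0 1 (by linarith)).and
    (s1 (a + τ) 1 0 1 (y j) (by linarith)))))))))).exists
  generalize s (a + τ) 1 n = C at *
  generalize s (c - d - 2 * τ) ε n = B at *
  generalize s (c - τ) (1 + ε) n = D at *
  have d1 := h a A C (by simp only; linarith)
  have d2 := h b C B (by simp only; linarith)
  have d3 := h c D A (by simp only; linarith)
  have d4 := h d B D (by simp only; linarith)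
  have d5 := h M A B (by simp only; linarith)
  have d6 := h M C D (by simp only; linarith)
  have d7 := hy A B (by linarith)
  have d8 := hy C D (by linarith)
  have d9 := hy j C (by linarith)
  simp only at d1 d2 d3 d4 d5 d6
  exact est (K := K) (H := Y C - Y A) (e1 := Y B - Y A) (e2 := Y D - Y C) (W := X B - X A)
    (by linarith) (by linarith) (by linarith) (by linarith) hg (by linarith) k1 hM.le (by linarith)
    (by linarith) (by linarith) (by linarith) (by linarith) (by linarith) (by linarith)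

theorem incr (hp : Den x y) (hq : Den X Y) (hy : Mo y Y) (h : Sl x y X Y ψ) {a b c d : ℝ}
    (h2 : a - b < c - d) (h3 : d < c) : ψ a - ψ b ≤ ψ c - ψ d := by
  rcases lt_or_ge a c with h1 | h1
  · exact trap hp hq hy h h1 h2 h3
  · have p := hp.map (a := -1) (b := 0) (c := 0) (d := 1) (by simp)
    have q := hq.map (a := -1) (b := 0) (c := 0) (d := 1) (by simp)
    have := trap (ψ := fun s => -ψ (-s)) p q (fun i j e => by simpa using hy i j (by simpa using e))
      (fun s i j e => by
        have := h (-s) j i (by simp only at e ⊢; linarith)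
        simp only at this ⊢
        linarith) (a := -b) (b := -a) (c := -d) (d := -c) (by linarith) (by linarith) (by linarith)
    simp only [neg_neg] at this
    linarith

theorem aff (h : ∀ a b c d, a - b < c - d → d < c → ψ a - ψ b ≤ ψ c - ψ d) (s : ℝ) :
    ψ s = ψ 0 + (ψ 1 - ψ 0) * s := by
  have key : ∀ s t p q : ℝ, 0 < p → 0 < q → q * (ψ (s + p) - ψ s) ≤ p * (ψ (t + q) - ψ t) := by
    intro s t p q hp hq
    have one : ∀ m n : ℕ, 0 < m → 0 < n → p * n < q * m →
        n * (ψ (s + p) - ψ s) ≤ m * (ψ (t + q) - ψ t) := by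
      intro m n hm hn hl
      have m0 : (0 : ℝ) < m := by exact_mod_cast hm
      have n0 : (0 : ℝ) < n := by exact_mod_cast hn
      have lt : p / m < q / n := by rw [div_lt_div_iff₀ m0 n0]; exact hl
      have t1 := Finset.sum_range_sub (fun i : ℕ => ψ (s + i * (p / m))) m
      have t2 := Finset.sum_range_sub (fun i : ℕ => ψ (t + i * (q / n))) n
      simp only [mul_div_cancel₀ _ m0.ne', mul_div_cancel₀ _ n0.ne', Nat.cast_zero, zero_mul,
        add_zero] at t1 t2
      have := Finset.sum_le_sum (s := Finset.range m) fun i _ =>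
        Finset.sum_le_sum (s := Finset.range n) fun j _ =>
          h (s + (i + 1 : ℕ) * (p / m)) (s + i * (p / m)) (t + (j + 1 : ℕ) * (q / n))
            (t + j * (q / n)) (by push_cast; linarith) (by push_cast; linarith [div_pos hq n0])
      simp only [t2, Finset.sum_const, Finset.card_range, nsmul_eq_mul, ← Finset.mul_sum, t1] at this
      exact this
    have i2 : 0 ≤ ψ (t + q) - ψ t := by linarith [h 0 0 (t + q) t (by linarith) (by linarith)]
    by_contra hc
    have hc := not_le.1 hc
    generalize ψ (s + p) - ψ s = U at *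
    generalize ψ (t + q) - ψ t = V at *
    have U0 : 0 < U := by nlinarith
    obtain ⟨n, hn⟩ := exists_nat_gt (q * V / (q * U - p * V))
    rw [div_lt_iff₀ (by linarith)] at hn
    have n0 : 0 < n := by
      rcases Nat.eq_zero_or_pos n with rfl | h0
      · simp at hn
        nlinarith
      · exact h0
    have f1 := Nat.lt_floor_add_one (p * n / q)
    have f2 := Nat.floor_le (show 0 ≤ p * n / q by positivity)
    rw [div_lt_iff₀ hq] at f1
    rw [le_div_iff₀ hq] at f2
    have := one (⌊p * n / q⌋₊ + 1) n (by omega) n0 (by push_cast; linarith)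
    push_cast at this
    nlinarith [mul_le_mul_of_nonneg_right f2 i2, mul_le_mul_of_nonneg_left this hq.le]
  rcases lt_trichotomy s 0 with hs | rfl | hs
  · have a := key s 0 (-s) 1 (by linarith) one_pos
    have b := key 0 s 1 (-s) one_pos (by linarith)
    simp only [add_neg_cancel, zero_add] at a b
    linarith
  · simp
  · have a := key 0 0 s 1 hs one_pos
    have b := key 0 0 1 s one_pos hs
    simp only [zero_add] at a b
    linarith

theorem pair (κ : ℝ) (h : Sl x y X Y fun s => κ * s) (i j : I) :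
    (X j - X i) * (y j - y i) = κ * ((x j - x i) * (Y j - Y i)) := by
  have main : ∀ i j, y i < y j → (X j - X i) * (y j - y i) = κ * ((x j - x i) * (Y j - Y i)) := by
    intro i j hij
    have p := sub_pos.2 hij
    obtain ⟨m, hm⟩ : ∃ m, m * (y j - y i) = x j - x i := ⟨_, div_mul_cancel₀ _ p.ne'⟩
    have e : X j - X i = κ * m * (Y j - Y i) := by
      refine eq_of_forall_dist_le fun ε hε => ?_
      have q : 0 < |κ * (Y j - Y i)| + 1 := by positivity
      have r := div_pos hε q
      have w := div_mul_cancel₀ ε q.ne'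
      have a := h (m - ε / (|κ * (Y j - Y i)| + 1)) i j (by simp only; nlinarith)
      have b := h (m + ε / (|κ * (Y j - Y i)| + 1)) j i (by simp only; nlinarith)
      simp only at a b
      rw [Real.dist_eq, abs_le]
      constructor <;> nlinarith [le_abs_self (κ * (Y j - Y i)), neg_abs_le (κ * (Y j - Y i))]
    rw [e, ← hm]
    ring
  have flat : ∀ i j, y i = y j → x i < x j → κ * (Y j - Y i) = 0 := by
    intro i j e hx
    by_contra ne
    have a := h ((X j - X i + 1) / (κ * (Y j - Y i))) i j (by simp only; rw [e]; linarith)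
    have w := div_mul_cancel₀ (X j - X i + 1) ne
    simp only at a
    nlinarith
  rcases lt_trichotomy (y i) (y j) with e | e | e
  · exact main i j e
  · rcases lt_trichotomy (x i) (x j) with f | f | f
    · rw [e]; linear_combination (-(x j - x i)) * flat i j e f
    · rw [e, f]; ring
    · rw [e]; linear_combination (x j - x i) * flat j i e.symm f
  · linear_combination main j i e

theorem final (hp : Den x y) (hq : Den X Y) (κ : ℝ) (h : ∀ i j,
    (X j - X i) * (y j - y i) = κ * ((x j - x i) * (Y j - Y i))) :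
    ∃ a b c d e f : ℝ, ∀ i, X i = a * x i + b * y i + e ∧ Y i = c * x i + d * y i + f := by
  obtain ⟨A, -⟩ := hp.unb (A := 1) (B := 0) (by simp) 0
  obtain ⟨B, hB⟩ := hp.unb (A := 0) (B := 1) (by simp) (y A)
  have hB : y B - y A ≠ 0 := ne_of_gt (by linarith)
  obtain ⟨C, hC⟩ := hp.unb (A := y B - y A) (B := -(x B - x A)) (Or.inl hB)
    ((y B - y A) * x A - (x B - x A) * y A)
  have hD : (y B - y A) * (x C - x A) - (x B - x A) * (y C - y A) ≠ 0 := ne_of_gt (by linarith)
  have hκ : κ ≠ 0 := by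
    rintro rfl
    have b0 : X B - X A = 0 := (mul_eq_zero.1 (by linear_combination h A B)).resolve_right hB
    have all : ∀ k, X k - X A = 0 := fun k => (mul_eq_zero.1 (show (X k - X A) * (y B - y A) = 0 by
      linear_combination h A k + h A B - h k B - (y k - y A) * b0)).resolve_right hB
    exact hq.nc (A := 1) (B := 0) (by simp) fun i j => by linarith [all i, all j]
  have i1 := mul_inv_cancel₀ hD
  have i2 := mul_inv_cancel₀ hκ
  generalize ((y B - y A) * (x C - x A) - (x B - x A) * (y C - y A))⁻¹ = r at i1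
  generalize κ⁻¹ = t at i2
  obtain ⟨a, ha⟩ : ∃ a, a = r * (κ * ((x C - x A) * (Y B - Y A) - (x B - x A) * (Y C - Y A))) :=
    ⟨_, rfl⟩
  obtain ⟨b, hb⟩ : ∃ b, b = r * ((x B - x A) * (X C - X A) - (x C - x A) * (X B - X A)) := ⟨_, rfl⟩
  obtain ⟨c, hc⟩ : ∃ c, c = r * ((y C - y A) * (Y B - Y A) - (y B - y A) * (Y C - Y A)) := ⟨_, rfl⟩
  obtain ⟨d, hd⟩ : ∃ d, d = r * t * ((y B - y A) * (X C - X A) - (y C - y A) * (X B - X A)) :=
    ⟨_, rfl⟩
  refine ⟨a, b, c, d, X A - a * x A - b * y A, Y A - c * x A - d * y A, fun k => ?_⟩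
  have e1 : (X k - X A) * (y B - y A) + (X B - X A) * (y k - y A)
      = κ * ((x k - x A) * (Y B - Y A) + (x B - x A) * (Y k - Y A)) := by
    linear_combination h A k + h A B - h k B
  have e2 : (X k - X A) * (y C - y A) + (X C - X A) * (y k - y A)
      = κ * ((x k - x A) * (Y C - Y A) + (x C - x A) * (Y k - Y A)) := by
    linear_combination h A k + h A C - h k C
  subst ha hb hc hd
  constructor
  · linear_combination r * (x C - x A) * e1 - r * (x B - x A) * e2 - (X k - X A) * i1
  · linear_combination r * t * (y C - y A) * e1 - r * t * (y B - y A) * e2 - (Y k - Y A) * i1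
      - r * ((Y k - Y A) * ((y B - y A) * (x C - x A) - (x B - x A) * (y C - y A))
        - (x k - x A) * ((y C - y A) * (Y B - Y A) - (y B - y A) * (Y C - Y A))) * i2

theorem main [Countable I] (hp : Den x y) (hq : Den u v)
    (H : ∀ a b c : ℝ, (a ≠ 0 ∨ b ≠ 0) → (∀ i, a * x i + b * y i ≠ c) → ∃ A B C : ℝ,
      (A ≠ 0 ∨ B ≠ 0) ∧ ∀ i, (a * x i + b * y i < c → A * u i + B * v i ≤ C) ∧
        (c < a * x i + b * y i → C ≤ A * u i + B * v i)) :
    ∃ a b c d e f : ℝ, ∀ i, u i = a * x i + b * y i + e ∧ v i = c * x i + d * y i + f := by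
  obtain ⟨A, B, h0, hx⟩ := exists_mo hq (H 1 0 · (by simp))
  obtain ⟨A', B', h0', hy⟩ := exists_mo hq (H 0 1 · (by simp))
  have hx : Mo x fun i => A * u i + B * v i := fun i j e => hx i j (by simpa using e)
  have hy : Mo y fun i => A' * u i + B' * v i := fun i j e => hy i j (by simpa using e)
  have hd : A * B' - B * A' ≠ 0 := fun hd => by
    obtain ⟨l, l0, e1, e2⟩ := par h0 h0' hd
    refine hq.nc h0 (nopar hp hx l0 fun i j e => ?_)
    have := hy i j e
    simp only [e1, e2] at this ⊢
    linarith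
  have hQ := hq.map hd
  have i1 := mul_inv_cancel₀ hd
  generalize (A * B' - B * A')⁻¹ = r at i1
  have ex : ∀ s, ∃ m, Mo (fun i => x i - s * y i)
      fun i => A * u i + B * v i - m * (A' * u i + B' * v i) := fun s => by
    obtain ⟨P, Q, k0, k⟩ := exists_mo hq (H 1 (-s) · (by simp))
    have e : ∀ i, P * u i + Q * v i = r * (P * B' - Q * A') * (A * u i + B * v i)
        + r * (Q * A - P * B) * (A' * u i + B' * v i) := fun i => by
      linear_combination (-(P * u i + Q * v i)) * i1
    have k' : Mo (fun i => x i - s * y i) fun i => r * (P * B' - Q * A') * (A * u i + B * v i)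
        + r * (Q * A - P * B) * (A' * u i + B' * v i) := fun i j w => by
      have := k i j (by simp only at w ⊢; linarith)
      simp only [← e] at this ⊢
      exact this
    have p := slope hp hQ hx hy s (by
      by_contra hc
      rw [not_or, not_not, not_not] at hc
      refine k0.elim (fun w => w ?_) fun w => w ?_
      · linear_combination A * hc.1 + A' * hc.2 - P * i1
      · linear_combination B * hc.1 + B' * hc.2 - Q * i1) k'
    generalize r * (P * B' - Q * A') = α at *
    generalize r * (Q * A - P * B) = β at *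
    refine ⟨-β / α, fun i j w => le_of_mul_le_mul_left ?_ p⟩
    have := k' i j w
    have z := div_mul_cancel₀ (-β) p.ne'
    simp only at this ⊢
    linear_combination this + ((A' * u j + B' * v j) - (A' * u i + B' * v i)) * z
  choose ψ hψ using ex
  have lin := aff fun a b c d => incr hp hQ hy hψ
  have hQ' := hQ.map (a := 1) (b := -ψ 0) (c := 0) (d := 1) (by simp)
  obtain ⟨a, b, c, d, e, f, h⟩ := final hp hQ' (ψ 1 - ψ 0) (pair _ fun s i j w => by
    have := hψ s i j w
    simp only at this ⊢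
    rw [lin s] at this
    linarith)
  refine ⟨r * (B' * (a + ψ 0 * c) - B * c), r * (B' * (b + ψ 0 * d) - B * d),
    r * (A * c - A' * (a + ψ 0 * c)), r * (A * d - A' * (b + ψ 0 * d)),
    r * (B' * (e + ψ 0 * f) - B * f), r * (A * f - A' * (e + ψ 0 * f)), fun i => ?_⟩
  obtain ⟨h1, h2⟩ := h i
  constructor
  · linear_combination r * B' * h1 + r * (B' * ψ 0 - B) * h2 - u i * i1
  · linear_combination (-r * A') * h1 + r * (A - A' * ψ 0) * h2 - v i * i1

end Pool.Agent.FS.PlaneSep
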